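import Pool.Agent.H255.BC.All6
import Pool.Agent.H255.BC.All9
import Pool.Agent.H255.BC.Bridge

set_option autoImplicit false

open Pool.Agent.H255.BC
open scoped InnerProductSpace

namespace Pool.Agent.Results.MP_7e3bdd_an.DominantCentralizers

/-- `T` lies in `K_P(x)`, the weakly closed convex hull of the conjugates `u x u^*`, `u` a unitary
of `P`. -/
def InHull {H : Type} [NormedAddCommGroup H] [InnerProductSpace ℂ H] [CompleteSpace H]
    (P : VonNeumannAlgebra H) (x T : H →L[ℂ] H) : Prop :=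
  ∀ (n : ℕ) (ξ η : Fin n → H) (ε : ℝ), 0 < ε →
    ∃ y ∈ convexHull ℝ {T : H →L[ℂ] H | ∃ u ∈ unitary (H →L[ℂ] H), u ∈ P ∧ T = u * x * star u},
      ∀ i : Fin n, ‖⟪η i, (y - T) (ξ i)⟫_ℂ‖ < ε

/-- The weak relative Dixmier property of `P ⊂ M`: for every `x ∈ M` the set `K_P(x)` meets
`P' ∩ M`. -/
def WeakDixmier {H : Type} [NormedAddCommGroup H] [InnerProductSpace ℂ H] [CompleteSpace H]
    (P M : VonNeumannAlgebra H) : Prop :=
  ∀ x : H →L[ℂ] H, x ∈ M → ∃ y : H →L[ℂ] H, y ∈ M ∧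
    (∀ z : H →L[ℂ] H, z ∈ P → z * y = y * z) ∧ InHull P x y

/-- For every `x ∈ M` the set `K_P(x)` contains a scalar. -/
def ScalarDixmier {H : Type} [NormedAddCommGroup H] [InnerProductSpace ℂ H] [CompleteSpace H]
    (P M : VonNeumannAlgebra H) : Prop :=
  ∀ x : H →L[ℂ] H, x ∈ M → ∃ c : ℂ, InHull P x (c • (1 : H →L[ℂ] H))

/-- `P' ∩ M = ℂ` -/
def Irreducible {H : Type} [NormedAddCommGroup H] [InnerProductSpace ℂ H] [CompleteSpace H]
    (P M : VonNeumannAlgebra H) : Prop :=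
  ∀ x : H →L[ℂ] H, x ∈ M → (∀ y : H →L[ℂ] H, y ∈ P → x * y = y * x) →
    ∃ c : ℂ, x = c • (1 : H →L[ℂ] H)

theorem inHull_mono {H : Type} [NormedAddCommGroup H] [InnerProductSpace ℂ H] [CompleteSpace H]
    {P Q : VonNeumannAlgebra H} (hPQ : ∀ a : H →L[ℂ] H, a ∈ P → a ∈ Q) {x T : H →L[ℂ] H}
    (h : InHull P x T) : InHull Q x T := by
  intro n ξ η ε hε
  obtain ⟨y, hy, hyi⟩ := h n ξ η ε hε
  refine ⟨y, convexHull_mono ?_ hy, hyi⟩
  rintro T ⟨u, hu, huP, rfl⟩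
  exact ⟨u, hu, hPQ u huP, rfl⟩

theorem irr_of_scalar {H : Type} [NormedAddCommGroup H] [InnerProductSpace ℂ H] [CompleteSpace H]
    {P M : VonNeumannAlgebra H} (h : ScalarDixmier P M) : Irreducible P M := by
  intro x hx hxP
  obtain ⟨c, hc⟩ := h x hx
  refine ⟨c, ?_⟩
  have h1 : {T : H →L[ℂ] H | ∃ u ∈ unitary (H →L[ℂ] H), u ∈ P ∧ T = u * x * star u} ⊆ {x} := by
    rintro T ⟨u, hu, huP, rfl⟩
    rw [Set.mem_singleton_iff, ← hxP u huP, mul_assoc, Unitary.mul_star_self_of_mem hu, mul_one]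
  have h2 : ∀ y ∈ convexHull ℝ
      {T : H →L[ℂ] H | ∃ u ∈ unitary (H →L[ℂ] H), u ∈ P ∧ T = u * x * star u}, y = x := by
    intro y hy
    have := convexHull_mono h1 hy
    rwa [convexHull_singleton, Set.mem_singleton_iff] at this
  refine sub_eq_zero.1 (ContinuousLinearMap.ext fun v => ?_)
  refine (inner_self_eq_zero (𝕜 := ℂ)).1
    (norm_le_zero_iff.1 (le_of_forall_pos_le_add fun ε hε => ?_))
  obtain ⟨y, hy, hyi⟩ := hc 1 (fun _ => v)
    (fun _ => (x - c • (1 : H →L[ℂ] H)) v) ε hε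
  have h3 := hyi 0
  rw [h2 y hy] at h3
  rw [zero_add]
  exact h3.le

/-- **The weak relative Dixmier property of the centralizers of dominant weights.**  Let `N ⊂ M`
be von Neumann algebras on a separable Hilbert space, `N` a factor of type III₁, `E : M → N` a
conditional expectation, `φ = ω_ξ` a faithful state of `M` with `φ ∘ E = φ`.  Let `ψ` be a
dominant weight of `N` and `P = N_ψ` its centralizer.  Then `P` is a factor and `P ⊂ M` has the
weak relative Dixmier property: `K_P(x) ∩ (P' ∩ M) ≠ ∅` for every `x ∈ M`.  In particular, all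
`K_P(x)`, `x ∈ M`, contain scalars if and only if `P ⊂ M` is irreducible, if and only if the
relative bicentralizer `B(N ⊂ M, φ)` is trivial; then all `K_Q(x)`, `P ⊂ Q ⊂ M`, contain scalars.
For `M = N` the inclusion is always irreducible. -/
theorem result (H : Type) [NormedAddCommGroup H] [InnerProductSpace ℂ H] [CompleteSpace H]
    [TopologicalSpace.SeparableSpace H] (N M : VonNeumannAlgebra H) (ξ : H)
    (E : (H →L[ℂ] H) → (H →L[ℂ] H)) (hI : Main.Inclusion N M ξ E) (h3 : Main.TypeIIIone N) :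
    ∃ U : ℝ → H →L[ℂ] H, Main.Modular M ξ U ∧ (∀ U', Main.Modular M ξ U' → U' = U) ∧
      (∃ v, Main.Dominant N U v) ∧
      ∀ v, Main.Dominant N U v → ∃ P : VonNeumannAlgebra H,
        (∀ x : H →L[ℂ] H, x ∈ P ↔ x ∈ Main.Centralizer N U v) ∧
        Irreducible P P ∧ WeakDixmier P M ∧
        (ScalarDixmier P M ↔ Irreducible P M) ∧
        (Irreducible P M ↔ ∀ b ∈ Main.Bic N M ξ, ∃ c : ℂ, b = c • (1 : H →L[ℂ] H)) ∧
        (Irreducible P M → ∀ Q : VonNeumannAlgebra H, (∀ a : H →L[ℂ] H, a ∈ P → a ∈ Q) →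
          (∀ a : H →L[ℂ] H, a ∈ Q → a ∈ M) → Irreducible Q M ∧ ScalarDixmier Q M) ∧
        ((∀ x : H →L[ℂ] H, x ∈ M → x ∈ N) → Irreducible P M) := by
  have hE : Pool.Agent.W662.CB.IsCondExp M N E := Bridge.condExp_iff.1 hI.exp
  obtain ⟨U, hU⟩ := hTT H M ξ hI.cyc hI.sep
  obtain ⟨J, hJ⟩ := hconj H M ξ U hU hI.cyc
  have hInc : Inc N M ξ U J E :=
    { le := hI.le, unit := hI.unit, cyc := hI.cyc, sep := hI.sep, modular := hU,
      conj := hJ, exp := hE, inv := hI.inv,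
      mod := pA8 H M N ξ U E hI.le hI.cyc hI.sep hU hE hI.inv }
  have hN : IsTypeIII1 N := hhom H N ξ hI.unit (fun x hx h => hI.sep x (hI.le x hx) h)
    (Bridge.type_imp h3)
  have hbic : Main.Bic N M ξ = Pool.Agent.W662.CB.relBicentralizer N M ξ := Bridge.bic_eq hstr hInc
  refine ⟨U, Bridge.modular_iff.2 hU, fun U' hU' => ?_, ?_, ?_⟩
  · exact hTTu H M ξ U' U hI.cyc (Bridge.modular_iff.1 hU') hU
  · obtain ⟨v, W, hv, -⟩ := hdex H N M ξ U J E hInc hN
    exact ⟨v, Bridge.dominant_iff.2 hv⟩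
  · intro v hv
    have hd := Bridge.dominant_iff.1 hv
    obtain ⟨W, hW⟩ := hspat H N M ξ U J E v hInc hd
    obtain ⟨P, hP, hK⟩ := hetrp H N M ξ U J E v hInc hN hd
    obtain ⟨⟨β, hβ⟩, -⟩ := hflow H N M ξ U J E (hinc3 H N M ξ U J E hInc hN)
    obtain ⟨B, C, π, hπ⟩ := htrp H N M ξ U J E β v W hInc hN hβ hd.toIsCocycle hW
    have hPN : ∀ x : H →L[ℂ] H, x ∈ P → x ∈ N := fun x hx => ((hP x).1 hx).1
    -- elements of `N` commuting with `P` are scalars
    have key : ∀ x : H →L[ℂ] H, x ∈ N → (∀ y : H →L[ℂ] H, y ∈ P → x * y = y * x) →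
        ∃ c : ℂ, x = c • (1 : H →L[ℂ] H) := by
      intro x hx hxP
      have hxC : x ∈ C.toStarSubalgebra :=
        (hπ.memC x).2 ⟨hI.le x hx, fun y hy => hxP y ((hP y).2 hy)⟩
      obtain ⟨b, hb⟩ : ∃ b, π b = ⟨x, hxC⟩ := π.surjective ⟨x, hxC⟩
      have h1 := hπ.exp b
      rw [hb] at h1
      exact ⟨_, (hE.proj x hx).symm.trans h1⟩
    have hWD : WeakDixmier P M := by
      intro x hx
      obtain ⟨y, hy, hyP⟩ := hK x hx
      exact ⟨y, ((Pool.Agent.W481.WD.p_KSET H P M (fun a ha => hI.le a (hPN a ha)) x hx).2.1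
        y hy).1, hyP, hy⟩
    have hsc : Irreducible P M → ScalarDixmier P M := by
      intro h x hx
      obtain ⟨y, hyM, hyP, hy⟩ := hWD x hx
      obtain ⟨c, rfl⟩ := h y hyM fun z hz => (hyP z hz).symm
      exact ⟨c, hy⟩
    refine ⟨P, hP, fun x hx h => key x (hPN x hx) h, hWD, ⟨irr_of_scalar, hsc⟩,
      ⟨fun h b hb => ?_, fun h x hx hxP => ?_⟩, fun h Q hPQ _ =>
        ⟨fun x hx hxQ => h x hx fun y hy => hxQ y (hPQ y hy), fun x hx => ?_⟩,
      fun hM x hx h => key x (hM x hx) h⟩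
    · rw [hbic] at hb
      have hbB : b ∈ B.toStarSubalgebra := (hπ.memB b).2 hb
      have h9 := (hπ.memC _).1 (π ⟨b, hbB⟩).2
      obtain ⟨c, hc⟩ := h _ h9.1 fun y hy => h9.2 y ((hP y).1 hy)
      refine ⟨c, ?_⟩
      have h10 : π ⟨b, hbB⟩ = π (c • (1 : B.toStarSubalgebra)) := by
        rw [map_smul, map_one]
        exact Subtype.ext hc
      exact congrArg (fun a : B.toStarSubalgebra => (a : H →L[ℂ] H)) ((EquivLike.injective π) h10)
    · have hxC : x ∈ C.toStarSubalgebra := (hπ.memC x).2 ⟨hx, fun y hy => hxP y ((hP y).2 hy)⟩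
      obtain ⟨b, hb⟩ : ∃ b, π b = ⟨x, hxC⟩ := π.surjective ⟨x, hxC⟩
      obtain ⟨c, hc⟩ := h (b : H →L[ℂ] H) (by rw [hbic]; exact (hπ.memB _).1 b.2)
      refine ⟨c, ?_⟩
      have h10 : b = c • (1 : B.toStarSubalgebra) := Subtype.ext hc
      rw [h10, map_smul, map_one] at hb
      exact (congrArg (fun a : C.toStarSubalgebra => (a : H →L[ℂ] H)) hb).symm
    · obtain ⟨c, hc⟩ := hsc h x hx
      exact ⟨c, inHull_mono hPQ hc⟩

end Pool.Agent.Results.MP_7e3bdd_an.DominantCentralizers
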